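import Pool.Agent.Helper31.CY.St2

/-!
# CY, REF: reflection of a meridian network
-/

set_option autoImplicit false

open Set Topology Filter

namespace Pool.Agent.Helper9.CY

open Pool.Agent.Helper31.CY

private theorem cat_ref (r m τ : ℝ) : cat r (-m) (-τ) = cat r m τ := by
  unfold cat
  rw [neg_sq, Real.arsinh_neg]
  have h : -τ * Real.sqrt (1 + m ^ 2) / r + -Real.arsinh m
      = -(τ * Real.sqrt (1 + m ^ 2) / r + Real.arsinh m) := by ring
  rw [h, Real.cosh_neg]

private theorem cat_ref' (r m a b : ℝ) (h : a = -b) : cat r (-m) a = cat r m b := by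
  rw [h, cat_ref]

private theorem box_ref (h : ℝ) (q x : ℝ × ℝ) (ε : ℝ) (hx : x ∈ box (q.1, h - q.2) ε) :
    ((x.1, h - x.2) : ℝ × ℝ) ∈ box q ε := by
  obtain ⟨h1, h2⟩ := hx
  refine ⟨h1, ?_⟩
  simp only at h2 ⊢
  have : h - x.2 - q.2 = -(x.2 - (h - q.2)) := by ring
  rw [this, abs_neg]
  exact h2

private theorem leg_ref (h : ℝ) (q v x : ℝ × ℝ) (hl : onLeg q v (x.1, h - x.2)) :
    onLeg (q.1, h - q.2) (v.1, -v.2) x := by
  have hd : v.1 / -v.2 = -(v.1 / v.2) := by rw [div_neg]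
  rcases hl with ⟨h1, h2, h3⟩ | ⟨h1, h2, h3⟩ | ⟨h1, h2, h3⟩
  · refine Or.inr (Or.inl ⟨?_, ?_, ?_⟩)
    · simpa using h1
    · simp only at h2 ⊢
      linarith
    · simp only at h3 ⊢
      rw [h3, hd]
      symm
      apply cat_ref'
      ring
  · refine Or.inl ⟨?_, ?_, ?_⟩
    · simpa using h1
    · simp only at h2 ⊢
      linarith
    · simp only at h3 ⊢
      rw [h3, hd]
      symm
      apply cat_ref'
      ring
  · refine Or.inr (Or.inr ⟨?_, ?_, ?_⟩)
    · simpa using h1
    · simp only at h2 ⊢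
      linarith
    · exact h3

private theorem leg_iff (h : ℝ) (q v x : ℝ × ℝ) :
    onLeg q v (x.1, h - x.2) ↔ onLeg (q.1, h - q.2) (v.1, -v.2) x := by
  constructor
  · exact leg_ref h q v x
  · intro hl
    have h1 := leg_ref h (q.1, h - q.2) (v.1, -v.2) (x.1, h - x.2)
      (by simpa using hl)
    simpa using h1

private theorem cat_at (N : Set (ℝ × ℝ)) (h : ℝ) (q : ℝ × ℝ) (hq : CatAt N q) :
    CatAt {x : ℝ × ℝ | (x.1, h - x.2) ∈ N} (q.1, h - q.2) := by
  obtain ⟨m, ε, he, hN⟩ := hq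
  refine ⟨-m, ε, he, fun x hx => ?_⟩
  have h1 := hN _ (box_ref h q x ε hx)
  rw [Set.mem_ofPred_eq, h1]
  simp only
  rw [cat_ref' q.1 m (x.2 - (h - q.2)) (h - x.2 - q.2) (by ring)]

private theorem hor_at (N : Set (ℝ × ℝ)) (h : ℝ) (q : ℝ × ℝ) (hq : HorAt N q) :
    HorAt {x : ℝ × ℝ | (x.1, h - x.2) ∈ N} (q.1, h - q.2) := by
  obtain ⟨ε, he, hN⟩ := hq
  refine ⟨ε, he, fun x hx => ?_⟩
  have h1 := hN _ (box_ref h q x ε hx)
  rw [Set.mem_ofPred_eq, h1]
  simp only
  constructor
  · intro h2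
    linarith
  · intro h2
    linarith

private theorem y_at (N : Set (ℝ × ℝ)) (h : ℝ) (q : ℝ × ℝ) (hq : YAt N q) :
    YAt {x : ℝ × ℝ | (x.1, h - x.2) ∈ N} (q.1, h - q.2) := by
  obtain ⟨v, hv, hs, ε, he, hN⟩ := hq
  refine ⟨fun i => ((v i).1, -(v i).2), fun i => ?_, ?_, ε, he, fun x hx => ?_⟩
  · simpa using hv i
  · have h1 : (v 0).1 + (v 1).1 + (v 2).1 = 0 := by
      have := congrArg Prod.fst hs
      simpa using this
    have h2 : (v 0).2 + (v 1).2 + (v 2).2 = 0 := by
      have := congrArg Prod.snd hs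
      simpa using this
    ext
    · simpa using h1
    · simp only [Prod.mk_add_mk, Prod.snd_zero]
      linarith
  · have h1 := hN _ (box_ref h q x ε hx)
    rw [Set.mem_ofPred_eq, h1]
    exact exists_congr fun i => leg_iff h q (v i) x

private theorem end_at (N : Set (ℝ × ℝ)) (h : ℝ) (q : ℝ × ℝ) (hq : EndAt N q) :
    EndAt {x : ℝ × ℝ | (x.1, h - x.2) ∈ N} (q.1, h - q.2) := by
  obtain ⟨v, hv, ε, he, hN⟩ := hq
  refine ⟨(v.1, -v.2), ?_, ε, he, fun x hx => ?_⟩
  · intro h0
    apply hv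
    have h1 : v.1 = 0 := congrArg Prod.fst h0
    have h2 : -v.2 = 0 := congrArg Prod.snd h0
    ext
    · exact h1
    · simpa using h2
  · have h1 := hN _ (box_ref h q x ε hx)
    rw [Set.mem_ofPred_eq, h1]
    exact leg_iff h q v x

private theorem ax_at (N : Set (ℝ × ℝ)) (h t : ℝ) (hq : AxAt N t) :
    AxAt {x : ℝ × ℝ | (x.1, h - x.2) ∈ N} (h - t) := by
  obtain ⟨ε, he, hN⟩ := hq
  refine ⟨ε, he, fun x hx hx1 => ?_⟩
  have h1 := hN _ (box_ref h (0, t) x ε hx) hx1
  rw [Set.mem_ofPred_eq, h1]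
  simp only
  constructor
  · intro h2
    linarith
  · intro h2
    linarith

theorem hREF (_hCTF : StCTF) : StREF := by
  intro N r0 r1 h hN
  refine ⟨?_, fun q hq => y_at N h q hq⟩
  refine ⟨hN.h0, hN.p1, hN.p0, ?_, ?_, ?_, ?_, ?_, ?_, ?_, ?_⟩
  · have hc : Continuous fun x : ℝ × ℝ => ((x.1, h - x.2) : ℝ × ℝ) := by fun_prop
    have h1 := hN.cpt.image hc
    have h2 : (fun x : ℝ × ℝ => ((x.1, h - x.2) : ℝ × ℝ)) '' N
        = {x : ℝ × ℝ | (x.1, h - x.2) ∈ N} := by
      ext x
      constructor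
      · rintro ⟨y, hy, rfl⟩
        simpa using hy
      · intro hx
        exact ⟨(x.1, h - x.2), hx, by simp⟩
    rw [← h2]
    exact h1
  · intro q hq
    exact hN.nn (q.1, h - q.2) hq
  · have := hN.q1
    simpa using this
  · have := hN.q0
    simpa using this
  · have := end_at N h (r1, h) hN.e1
    simpa using this
  · have := end_at N h (r0, 0) hN.e0
    simpa using this
  · intro q hq h1 h2 h3
    have h4 : ((q.1, h - q.2) : ℝ × ℝ) ≠ (r0, 0) := by
      intro h5
      apply h2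
      have h6 : q.1 = r0 := congrArg Prod.fst h5
      have h7 : h - q.2 = 0 := congrArg Prod.snd h5
      ext
      · exact h6
      · simp only
        linarith
    have h5 : ((q.1, h - q.2) : ℝ × ℝ) ≠ (r1, h) := by
      intro h5
      apply h1
      have h6 : q.1 = r1 := congrArg Prod.fst h5
      have h7 : h - q.2 = h := congrArg Prod.snd h5
      ext
      · exact h6
      · simp only
        linarith
    rcases hN.int (q.1, h - q.2) hq h4 h5 h3 with h6 | h6 | h6
    · left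
      have := cat_at N h _ h6
      simpa using this
    · right
      left
      have := hor_at N h _ h6
      simpa using this
    · right
      right
      have := y_at N h _ h6
      simpa using this
  · intro t ht
    have h1 : ((0 : ℝ), h - t) ∈ N := ht
    have h2 := ax_at N h _ (hN.ax _ h1)
    simpa using h2

end Pool.Agent.Helper9.CY
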