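import Pool.Agent.Helper31.CY.St4

/-!
# CY, XR2: flat points are regular
-/

set_option autoImplicit false

open Set Topology Filter

namespace Pool.Agent.Helper9.CY

open Pool.Agent.Helper31.CY

private theorem hasF (t : ℝ) (x : E3) :
    HasFDerivAt (fun y : E3 => y 2 - t) (EuclideanSpace.proj 2 : E3 →L[ℝ] ℝ) x := by
  have h := (EuclideanSpace.proj 2 : E3 →L[ℝ] ℝ).hasFDerivAt (x := x)
  exact h.sub_const t

private theorem D_eq (t : ℝ) (i : Fin 3) (x : E3) :
    D i (fun y : E3 => y 2 - t) x = (bv i) 2 := by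
  unfold D
  rw [(hasF t x).fderiv]
  rfl

private theorem DD_eq (t : ℝ) (i j : Fin 3) (x : E3) :
    D j (D i (fun y : E3 => y 2 - t)) x = 0 := by
  have h : D i (fun y : E3 => y 2 - t) = fun _ => (bv i) 2 := by
    funext y
    exact D_eq t i y
  rw [h]
  unfold D
  rw [fderiv_fun_const]
  rfl

theorem hXR2 : StXR2 := by
  intro S p t ε hε hS
  refine ⟨fun y => y 2 - t, Metric.ball p ε, Metric.isOpen_ball, Metric.mem_ball_self hε, ?_, ?_, ?_, ?_⟩
  · apply ContDiff.contDiffOn
    exact ((EuclideanSpace.proj 2 : E3 →L[ℝ] ℝ).contDiff).sub contDiff_const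
  · intro x _ h0
    have h1 := D_eq t 2 x
    unfold D at h1
    rw [h0] at h1
    have h2 : (bv 2) 2 = (1 : ℝ) := by
      unfold bv
      simp
    rw [h2] at h1
    simp at h1
  · intro x hx
    rw [hS x hx]
    constructor
    · intro h
      simp only
      linarith
    · intro h
      simp only at h
      linarith
  · intro x _ _
    unfold mse
    simp only [DD_eq, Finset.sum_const_zero, mul_zero, sub_zero]

end Pool.Agent.Helper9.CY
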